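import Pool.Agent.H.MP_292d26_lc.C

namespace Pool.Agent.Results.MP_292d26_lc.Sig2

open Pool.Agent.Lib.CX Pool.Agent.Lib.CX2

/-- the listed pairs form a strict order on the ground set -/
def IsPo (a : Gr) : Prop := (∀ u, ¬a.arc u u) ∧ ∀ u v w, a.arc u v → a.arc v w → a.arc u w

/-- pairs of finite posets -/
abbrev Inst := {x : Gr × Gr // IsPo x.1 ∧ IsPo x.2}

/-- the first poset is a chain minor of the second -/
def ChainMinor (x : Inst) : Prop :=
  ∃ f : Fin x.1.2.n → Fin x.1.1.n, ∀ c : List (Fin x.1.1.n), c.IsChain x.1.1.arc →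
    ∃ d : List (Fin x.1.2.n), d.IsChain x.1.2.arc ∧ d.map f = c

theorem result : Sig2Complete ChainMinor ∧
    (InNP ChainMinor ↔ ∀ L : List Bool → Prop, InNP L → InNP fun w => ¬L w) :=
  ⟨⟨H.MP_292d26_lc.sig2, H.MP_292d26_lc.hard⟩,
    fun h _ hL => InNP.red h (H.MP_292d26_lc.hard _ (H.MP_292d26_lc.co_sig2 hL)), H.MP_292d26_lc.np_of_co⟩

end Pool.Agent.Results.MP_292d26_lc.Sig2
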